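import Pool.Agent.Lib.MP_566bac_pr.Zd.All

/-!
# Failure of unique continuation from positive density on supercritical percolation clusters

For bond percolation on `ℤ^d`, for every `d ≥ 2` and every `p` with `p_c(d) < p < 1`, there is
almost surely a non-constant harmonic function on the infinite cluster which is bounded by one on a
set of positive density.  The density is taken in the balls of any norm.

Idea of the proof for `d = 2`.  Let `D` be the set of the vertices of the infinite cluster in
column 1, in a window of height `n`, whose left edge is open.  By duality, a harmonic function with
zero boundary values on the outer left part of a large box, and otherwise free, can take `k`
linearly independent sets of values on `D` if a function `f` supported in the box, harmonic off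
`D`, and zero on `D` except at the starting points of `k` disjoint open crossings to the far right
column, has to vanish.  This is proved by a nodal argument which uses planarity.  The number of
disjoint crossings is at least `c n` for every `p > 1/2`, by the exponential decay of the dual
percolation.  A compactness argument gives a harmonic function which is bounded by one on the left
half of the cluster, with positive probability, and ergodicity gives it almost surely.

Idea of the proof for `d ≥ 3`.  There are weights `e^{2Φ}` on `ℝ^d`, with `Φ` homogeneous at
infinity up to a discrete scaling, such that `Φ` is very negative on a union `D` of balls of
comparable size around the points `K^m e`, very positive on spherical shells in between, and such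
that the sum of any two of the eigenvalues of the Hessian is positive in the two-dimensional sense
which a Carleman inequality for the Laplace operator needs.  Quantitative homogenisation of the
cluster (proved here from scratch, on the torus, with the inequality of Efron and Stein, a
renormalisation of the cluster, and estimates for the Green function) carries the Carleman
inequality over to the cluster: the weighted square norm of a finitely supported function is at
most a constant times the weighted norm of its Laplacian, up to a fixed finite set.  By duality,
either there is a non-zero harmonic function with finite weighted norm, which is small on the
shells, or the equation `Δ w = δ_o` has, for every such weight, a solution which is very small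
on `D`.  In the second case the differences of two such solutions, for overlapping balls, are
harmonic and small on a set of positive density; if all were constant, there would be one
solution which is very small near the spheres of radius `K^m`, which contradicts the divergence
theorem.

The renormalisation starts from the fact that large boxes contain, with probability close to one,
exactly one large cluster, for every `p > p_c(d)`.  This is a theorem of Grimmett-Marstrand and
Pisztora; it is proved in the library (`Zd/`), as are the theorems of Harris and Kesten for `d = 2`,
so that the result does not use any unproved fact.
-/

open MeasureTheory ProbabilityTheory

namespace Pool.Agent.Results.MP_566bac_pr.Supercritical

open Pool.Agent.Lib.MP_566bac_pr.Zd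

/-- For bond percolation on `ℤ^d`, for every `d ≥ 2` and every `p` strictly between the critical
probability and one, the following holds almost surely: there is exactly one infinite open cluster
`C`, and there is a non-constant harmonic function `h` on `C` for which the set of the sites of `C`
with `|h| ≤ 1` has positive density, for the balls of every norm. -/
theorem result (d : ℕ) (hd : 2 ≤ d) (p : unitInterval) (hp : criticalProbability d < p)
    (hp1 : (p : ℝ) < 1) :
    ∀ᵐ S ∂(setBernoulli (lattice d).edgeSet p),
      ∃ C : Set (V d), IsInfiniteCluster S C ∧
        (∀ C' : Set (V d), IsInfiniteCluster S C' → C' = C) ∧
        ∃ h : V d → ℝ, IsHarmonicOn S C h ∧ (∃ x ∈ C, ∃ y ∈ C, h x ≠ h y) ∧
          HasPositiveDensity {x | x ∈ C ∧ |h x| ≤ 1} :=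
  main_all hd hp hp1

end Pool.Agent.Results.MP_566bac_pr.Supercritical
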